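import Pool.Agent.N90.MN.Weil
import Pool.Agent.N90.TD.Main

/-!
# Ordinary abelian varieties whose first exotic power is large
-/

set_option autoImplicit false
set_option linter.unusedSectionVars false

namespace Pool.Agent.N90.MN

open NumberField Finset Module Pool.Agent.N90.HE Pool.Agent.N90.FD Pool.Agent.N90.HG
  Pool.Agent.H204R3.CM Pool.Agent.W546.GHC Pool.Agent.H977R3.CM Pool.Agent.N90.TD

noncomputable section

section family

variable {K : Type} [Field K] [NumberField K] [IsCMField K] [IsGalois ℚ K]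

/-- If there is no relation with coefficients at most two, the conjugates of the type are
different. -/
theorem eq_of_same (φ₀ : K →+* ℂ) (Φ : Set (K →+* ℂ)) (hΦ : IsCMType Φ)
    (hno : ∀ c : Unit → (K →+* K) → ℤ, IsRel (E := fun _ : Unit => K) (fun _ => Φ) φ₀ c →
      (∀ i φ, |c i φ| ≤ 1) → ∀ i φ, c i φ = 0) (φ φ' : K →+* ℂ)
    (h : ∀ σ : K ≃ₐ[ℚ] K, ∀ g g' : K ≃ₐ[ℚ] K, φ = φ₀.comp (g : K →+* K) →
      φ' = φ₀.comp (g' : K →+* K) →
      (φ₀.comp ((σ * g : K ≃ₐ[ℚ] K) : K →+* K) ∈ Φ ↔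
        φ₀.comp ((σ * g' : K ≃ₐ[ℚ] K) : K →+* K) ∈ Φ)) : φ = φ' := by
  classical
  obtain ⟨g, hg⟩ := exists_emb φ₀ φ
  obtain ⟨g', hg'⟩ := exists_emb φ₀ φ'
  by_contra hne
  have hgg : g ≠ g' := by
    rintro rfl
    exact hne (hg.trans hg'.symm)
  have hiff : ∀ σ : K ≃ₐ[ℚ] K, (φ₀.comp ((σ * g : K ≃ₐ[ℚ] K) : K →+* K) ∈ Φ ↔
      φ₀.comp ((σ * g' : K ≃ₐ[ℚ] K) : K →+* K) ∈ Φ) := fun σ => h σ g g' hg hg'
  -- `g'` is not the complex conjugate of `g`
  have hgc : ∀ g : K ≃ₐ[ℚ] K, (φ₀.comp (g : K →+* K) ∈ Φ ↔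
      φ₀.comp ((g * cgal K : K ≃ₐ[ℚ] K) : K →+* K) ∉ Φ) := by
    intro g
    rw [← conj_emb]
    exact hΦ _
  have hcne : g' ≠ g * cgal K := by
    rintro rfl
    have h1 := hiff 1
    rw [one_mul, one_mul] at h1
    have h2 := hgc g
    tauto
  have hcne' : g' * cgal K ≠ g * cgal K := fun h1 => hgg (mul_right_cancel h1).symm
  have hcc : ∀ x : K ≃ₐ[ℚ] K, x * cgal K * cgal K = x := by
    intro x
    ext y
    change x (cgal K (cgal K y)) = x y
    rw [cgal_cgal]
  have hxc : ∀ x : K ≃ₐ[ℚ] K, x * cgal K ≠ x := by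
    intro x h1
    have h2 := hgc x
    rw [h1] at h2
    tauto
  -- the relation
  let cc : (K ≃ₐ[ℚ] K) → ℤ := fun x => (if x = g then 1 else 0) - (if x = g * cgal K then 1 else 0)
    - ((if x = g' then 1 else 0) - (if x = g' * cgal K then 1 else 0))
  let c : Unit → (K →+* K) → ℤ := fun _ φ => cc ((galEquiv K).symm φ)
  have hcx : ∀ x : K ≃ₐ[ℚ] K, c () (x : K →+* K) = cc x := by
    intro x
    simp only [c]
    rw [← galEquiv_apply, Equiv.symm_apply_apply]
  let f : (K ≃ₐ[ℚ] K) → ℤ := fun x => if φ₀.comp (x : K →+* K) ∈ Φ then 1 else -1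
  have hf : ∀ x, f x = 1 ∨ f x = -1 := by
    intro x
    simp only [f]
    split_ifs
    · exact Or.inl rfl
    · exact Or.inr rfl
  have hfc : ∀ x, f (x * cgal K) = -f x := by
    intro x
    simp only [f]
    have h1 := hgc x
    by_cases h2 : φ₀.comp (x : K →+* K) ∈ Φ
    · rw [if_pos h2, if_neg (h1.1 h2)]
    · rw [if_neg h2, if_pos (by tauto)]
      norm_num
  have htype : Φ = typeOf φ₀ f := by
    ext ψ
    obtain ⟨x, rfl⟩ := exists_emb φ₀ ψ
    rw [mem_typeOf]
    simp only [f]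
    by_cases h2 : φ₀.comp (x : K →+* K) ∈ Φ
    · simp [h2]
    · simp [h2]
  have hrel : IsRel (E := fun _ : Unit => K) (fun _ => Φ) φ₀ c := by
    rw [htype, isRel_iff φ₀ f hf c]
    constructor
    · intro x
      rw [hcx, hcx]
      simp only [cc]
      have e1 : (x * cgal K = g) = (x = g * cgal K) := by
        apply propext
        constructor
        · intro h1
          rw [← h1, hcc]
        · intro h1
          rw [h1, hcc]
      have e2 : (x * cgal K = g * cgal K) = (x = g) := by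
        apply propext
        constructor
        · intro h1
          exact mul_right_cancel h1
        · intro h1
          rw [h1]
      have e3 : (x * cgal K = g') = (x = g' * cgal K) := by
        apply propext
        constructor
        · intro h1
          rw [← h1, hcc]
        · intro h1
          rw [h1, hcc]
      have e4 : (x * cgal K = g' * cgal K) = (x = g') := by
        apply propext
        constructor
        · intro h1
          exact mul_right_cancel h1
        · intro h1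
          rw [h1]
      simp only [e1, e2, e3, e4]
      ring
    · intro σ
      have h1 : ∑ x : K ≃ₐ[ℚ] K, c () (x : K →+* K) * f (σ * x) =
          f (σ * g) - f (σ * (g * cgal K)) - (f (σ * g') - f (σ * (g' * cgal K))) := by
        rw [Finset.sum_congr rfl (fun x _ => by rw [hcx x])]
        simp only [cc, sub_mul, Finset.sum_sub_distrib, ite_mul, one_mul, zero_mul,
          Finset.sum_ite_eq', Finset.mem_univ, if_true]
      rw [h1, ← mul_assoc, ← mul_assoc, hfc, hfc]
      have h2 : f (σ * g) = f (σ * g') := by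
        simp only [f]
        by_cases h3 : φ₀.comp ((σ * g : K ≃ₐ[ℚ] K) : K →+* K) ∈ Φ
        · rw [if_pos h3, if_pos ((hiff σ).1 h3)]
        · rw [if_neg h3, if_neg (fun h4 => h3 ((hiff σ).2 h4))]
      rw [h2]
      ring
  have h1 : c () (g : K →+* K) = 0 := by
    refine hno c hrel (fun i φ => ?_) () _
    obtain ⟨x, rfl⟩ := (galEquiv K).surjective φ
    have h2 : c i (galEquiv K x) = cc x := by
      rw [galEquiv_apply]
      exact hcx x
    rw [h2]
    simp only [cc]
    by_cases e1 : x = g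
    · subst e1
      have h3 : x ≠ x * cgal K := (hxc x).symm
      have h4 : x ≠ g' := hgg
      have h5 : x ≠ g' * cgal K := fun h6 => hcne (by rw [h6, hcc])
      simp [h3, h4, h5]
    · by_cases e2 : x = g * cgal K
      · subst e2
        have h4 : g * cgal K ≠ g' := hcne.symm
        have h5 : g * cgal K ≠ g' * cgal K := hcne'.symm
        simp [e1, h4, h5]
      · by_cases e3 : x = g'
        · subst e3
          have h5 : x ≠ x * cgal K := (hxc x).symm
          simp [e1, e2, h5]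
        · by_cases e4 : x = g' * cgal K
          · subst e4
            simp [e1, e2, e3]
          · simp [e1, e2, e3, e4]
  rw [hcx] at h1
  simp only [cc] at h1
  have h3 : g ≠ g * cgal K := (hxc g).symm
  have h5 : g ≠ g' * cgal K := fun h6 => hcne (by rw [h6, hcc])
  simp [h3, hgg, h5] at h1

end family

/-- **Ordinary abelian varieties with a late exotic power.** -/
theorem lower {m k : ℕ} (hm : 2 ≤ m) (hk : 4 * 2 ^ m ≤ 3 ^ k) (B : ℕ) :
    ∃ (p : ℕ) (_ : Fact p.Prime) (a : ℕ) (E : Type) (_ : Field E) (_ : NumberField E)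
      (_ : IsCMField E) (π : E), B < p ∧
      IsOrdinaryFamily p a (fun _ : Unit => E) (fun _ => π) ∧
      finrank ℚ E = 2 * (4 ^ m * 3 ^ k) ∧
      (∀ (K : Type) [Field K] [CharZero K] (r d : ℕ), 2 ^ m * min r d < 2 ^ (2 ^ m - 1) →
        TateGeneratedIn (frob K (E := fun _ : Unit => E) (fun _ => π) (fun _ : Fin r => ()))
          (p ^ a) d) ∧
      (∀ (K : Type) [Field K] [CharZero K] (r : ℕ), 2 ^ (2 ^ m - 1) ≤ r →
        ¬ TateGenerated (frob K (E := fun _ : Unit => E) (fun _ => π) (fun _ : Fin r => ()))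
          (p ^ a)) := by
  classical
  have : NeZero (3 ^ k) := ⟨by positivity⟩
  obtain ⟨E, iF, iN, iCM, iG, e, he⟩ := exists_heis m k
  obtain ⟨φ₀⟩ : Nonempty (E →+* ℂ) := inferInstance
  obtain ⟨Φ, hΦ, hlong, c₀, hc₀, hc₀le, hc₀ne⟩ := exists_type (by omega : 1 ≤ m)
    (Odd.pow (by decide : Odd 3)) hk e he φ₀
  obtain ⟨p, hp, hBp, hemb⟩ := exists_embed E B
  have hfact : Fact p.Prime := ⟨hp⟩
  obtain ⟨x₀⟩ := hemb
  obtain ⟨ν⟩ := Pool.Agent.R401.Iso.exists_iso p
  obtain ⟨a, π, ha, hint, hweil, hord, hmem⟩ := exists_weil x₀ ν φ₀ Φ hΦ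
  have hpow : m < 2 ^ m - 1 := by
    have h1 : ∀ m, 2 ≤ m → m + 1 < 2 ^ m := by
      intro m hm
      induction m, hm using Nat.le_induction with
      | base => norm_num
      | succ m hm ih =>
        rw [pow_succ]
        omega
    have := h1 m hm
    omega
  have hpow' : (2 : ℤ) ^ m < 2 ^ (2 ^ m - 1) := pow_lt_pow_right₀ (by norm_num) hpow
  have hno : ∀ c : Unit → (E →+* E) → ℤ, IsRel (E := fun _ : Unit => E) (fun _ => Φ) φ₀ c →
      (∀ i φ, |c i φ| ≤ 1) → ∀ i φ, c i φ = 0 := by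
    intro c hc hle
    refine hlong c hc fun i φ => ?_
    refine lt_of_le_of_lt ?_ hpow'
    calc (2 : ℤ) ^ m * |c i φ| ≤ 2 ^ m * 1 :=
          mul_le_mul_of_nonneg_left (hle i φ) (by positivity)
      _ = 2 ^ m := mul_one _
  have hfam : IsOrdinaryFamily p a (fun _ : Unit => E) (fun _ => π) := by
    refine ⟨ha, fun _ => hint, fun _ => hweil, fun _ => hord, ?_⟩
    rintro s hs ⟨⟩ ⟨⟩ φ φ' hφ
    congr 1
    refine eq_of_same φ₀ Φ hΦ hno φ φ' ?_
    rintro σ g g' rfl rfl
    have h1 : g (π ^ s) = g' (π ^ s) := φ₀.injective hφ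
    have h2 : ‖ν.symm (φ₀ (σ (g π)))‖ ^ s = ‖ν.symm (φ₀ (σ (g' π)))‖ ^ s := by
      rw [← norm_pow, ← norm_pow, ← map_pow, ← map_pow, ← map_pow, ← map_pow, ← map_pow,
        ← map_pow, ← map_pow, ← map_pow, h1]
    have h3 : ‖ν.symm (φ₀ (σ (g π)))‖ = ‖ν.symm (φ₀ (σ (g' π)))‖ :=
      (pow_left_inj₀ (norm_nonneg _) (norm_nonneg _) hs.ne').1 h2
    rw [hmem, hmem]
    have h4 : (φ₀.comp ((σ * g : E ≃ₐ[ℚ] E) : E →+* E)) π = φ₀ (σ (g π)) := rfl
    have h5 : (φ₀.comp ((σ * g' : E ≃ₐ[ℚ] E) : E →+* E)) π = φ₀ (σ (g' π)) := rfl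
    rw [h4, h5, h3]
  have htyp : typ (E := fun _ : Unit => E) (fun _ => π) ν = fun _ => Φ := by
    funext i
    ext φ
    exact (hmem φ).symm
  have hclos : ∀ i : Unit, ∀ ψ : E →+* ℂ, ∃ φ : E →+* E, φ₀.comp φ = ψ := by
    intro _ ψ
    obtain ⟨g, hg⟩ := exists_emb φ₀ ψ
    exact ⟨(g : E →+* E), hg.symm⟩
  have hmult : ∀ r i, mult (fun _ : Fin r => ()) i = r := by
    rintro r ⟨⟩
    simp [mult]
  refine ⟨p, hfact, a, E, iF, iN, iCM, π, hBp, hfam, ?_, ?_, ?_⟩
  · rw [← IsGalois.card_aut_eq_finrank, Nat.card_congr (e.toEquiv.trans (HG.equiv m (3 ^ k)))]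
    rw [Nat.card_eq_fintype_card, Fintype.card_prod, Fintype.card_prod, Fintype.card_prod,
      Fintype.card_fun, ZMod.card, ZMod.card, Fintype.card_fin]
    have h4 : (4 : ℕ) ^ m = 2 ^ m * 2 ^ m := by
      rw [← mul_pow]
      norm_num
    rw [h4]
    ring
  · intro K _ _ r d hr
    apply generated_up_deg
    have h1 : TateGeneratedIn (F0 (E := fun _ : Unit => E) (fun _ => π) (fun _ : Fin r => ()))
        (p ^ a) d := by
      rw [generated_iff_deg hfam ν, htyp]
      refine fun f hf => hodge_of_bounded_deg (E := fun _ : Unit => E) (Φ := fun _ => Φ)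
        (fun _ => hΦ) _ φ₀ hclos (fun c hc hle hle' => hlong c hc fun i φ => ?_) f hf
      have h2 := hle i φ
      have h2' := hle' i φ
      rw [hmult] at h2
      have h3 : ((2 ^ m * min r d : ℕ) : ℤ) < ((2 ^ (2 ^ m - 1) : ℕ) : ℤ) := by exact_mod_cast hr
      push_cast at h3
      calc (2 : ℤ) ^ m * |c i φ| ≤ 2 ^ m * min (r : ℤ) (d : ℤ) :=
            mul_le_mul_of_nonneg_left (le_min h2 h2') (by positivity)
        _ < _ := h3
    exact h1
  · intro K _ _ r hr hgen
    have h1 : TateGenerated (F0 (E := fun _ : Unit => E) (fun _ => π) (fun _ : Fin r => ()))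
        (p ^ a) := generated_down _ _ hgen
    rw [generated_iff hfam ν, htyp] at h1
    refine not_generated_of_rel (E := fun _ : Unit => E) (Φ := fun _ => Φ) (fun _ => hΦ)
      (fun _ : Fin r => ()) φ₀ ?_ hclos c₀ hc₀ (fun i φ => ?_) hc₀ne h1
    · have h2 := separated_typ hfam ν φ₀ hclos
      rwa [htyp] at h2
    · rw [hmult]
      refine (hc₀le i φ).trans ?_
      exact_mod_cast hr

end

end Pool.Agent.N90.MN
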