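import Pool.Agent.N90.MN.Typ
import Pool.Agent.N90.HE.Core2

/-!
# CM types with only long relations, from sign functions
-/

set_option autoImplicit false
set_option linter.unusedSectionVars false

namespace Pool.Agent.N90.MN

open NumberField Finset Module Pool.Agent.N90.HE Pool.Agent.N90.FD Pool.Agent.N90.HG
  Pool.Agent.H204R3.CM Pool.Agent.W546.GHC Pool.Agent.H977R3.CM

noncomputable section

variable {K : Type} [Field K] [NumberField K] [IsCMField K] [IsGalois ℚ K]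

/-- **CM types with only long relations.** -/
theorem exists_type_of {m n : ℕ} [NeZero n] (B : ℤ)
    (hcore : ∃ ee : VV m → VV m → ZMod n → ℤ, (∀ a b i, ee a b i = 1 ∨ ee a b i = -1) ∧
      (∀ x, Rel ee x → (∃ a b i, x a b i ≠ 0) → ∃ a b i, B ≤ 2 ^ m * |x a b i|) ∧
      ∃ x, Rel ee x ∧ (∃ a b i, x a b i ≠ 0) ∧ ∀ a b i, |x a b i| ≤ B)
    (E : (K ≃ₐ[ℚ] K) ≃* HG m n)
    (hE : ∀ g : K ≃ₐ[ℚ] K, (∀ x, g x = IsCMField.complexConj K x) → E g = HG.c m n)
    (φ₀ : K →+* ℂ) :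
    ∃ Φ : Set (K →+* ℂ), IsCMType Φ ∧
      (∀ c : Unit → (K →+* K) → ℤ, IsRel (E := fun _ : Unit => K) (fun _ => Φ) φ₀ c →
        (∀ i φ, 2 ^ m * |c i φ| < B) → ∀ i φ, c i φ = 0) ∧
      ∃ c : Unit → (K →+* K) → ℤ, IsRel (E := fun _ : Unit => K) (fun _ => Φ) φ₀ c ∧
        (∀ i φ, |c i φ| ≤ B) ∧ ∃ i φ, c i φ ≠ 0 := by
  classical
  obtain ⟨ee, hee, hlong, x₀, hx₀, hx₀ne, hx₀le⟩ := hcore
  let f : (K ≃ₐ[ℚ] K) → ℤ := fun g => sg (E g).s * ee (E g).a (E g).b (E g).i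
  have hcE : E (cgal K) = HG.c m n := hE _ cgal_apply
  have hf : ∀ g, f g = 1 ∨ f g = -1 := by
    intro g
    simp only [f]
    rcases sg_eq (E g).s with h1 | h1 <;> rcases hee (E g).a (E g).b (E g).i with h2 | h2 <;>
      rw [h1, h2] <;> norm_num
  have hs1 : ∀ s : ZMod 2, sg (s + 1) = -sg s := by decide
  have hfc : ∀ g, f (g * cgal K) = -f g := by
    intro g
    simp only [f, map_mul, hcE, HG.mul_a, HG.mul_b, HG.mul_s, HG.mul_i, HG.c, add_zero,
      dotProduct_zero, hs1]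
    ring
  -- sums over the group
  have hsum : ∀ F : HG m n → ℤ, ∑ g : K ≃ₐ[ℚ] K, F (E g) =
      ∑ a, ∑ b, ∑ i, (F ⟨a, b, 0, i⟩ + F ⟨a, b, 1, i⟩) := by
    intro F
    rw [Fintype.sum_equiv (E.toEquiv.trans (HG.equiv m n)) (fun g => F (E g))
      (fun y => F ((HG.equiv m n).symm y)) (fun g => by
        change F (E g) = F ((HG.equiv m n).symm ((HG.equiv m n) (E g)))
        rw [Equiv.symm_apply_apply])]
    rw [Fintype.sum_prod_type]
    refine Finset.sum_congr rfl fun a _ => ?_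
    rw [Fintype.sum_prod_type]
    refine Finset.sum_congr rfl fun b _ => ?_
    rw [Fintype.sum_prod_type]
    change ∑ s : ZMod 2, ∑ i, F ⟨a, b, s, i⟩ = _
    rw [Finset.sum_comm]
    refine Finset.sum_congr rfl fun i _ => ?_
    exact Fin.sum_univ_two (fun s : Fin 2 => F ⟨a, b, (s : ZMod 2), i⟩)
  have hrel : ∀ (C : HG m n → ℤ), (∀ a b s i, C ⟨a, b, s, i⟩ = sg s * C ⟨a, b, 0, i⟩) →
      ∀ σ : K ≃ₐ[ℚ] K, ∑ g : K ≃ₐ[ℚ] K, C (E g) * f (σ * g) = 2 * sg (E σ).s *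
        ∑ a, ∑ b, ∑ i, C ⟨a, b, 0, i⟩ * sg ((E σ).b ⬝ᵥ a) *
          ee (a + (E σ).a) (b + (E σ).b) (i + (E σ).i) := by
    intro C hC σ
    have h1 : ∀ g : K ≃ₐ[ℚ] K, C (E g) * f (σ * g) = (fun y : HG m n => C y *
        (sg ((E σ) * y).s * ee ((E σ) * y).a ((E σ) * y).b ((E σ) * y).i)) (E g) := by
      intro g
      simp only [f, map_mul]
    refine (Finset.sum_congr rfl fun g _ => h1 g).trans ((hsum (fun y : HG m n => C y *
        (sg ((E σ) * y).s * ee ((E σ) * y).a ((E σ) * y).b ((E σ) * y).i))).trans ?_)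
    rw [Finset.mul_sum]
    refine Finset.sum_congr rfl fun a _ => ?_
    rw [Finset.mul_sum]
    refine Finset.sum_congr rfl fun b _ => ?_
    rw [Finset.mul_sum]
    refine Finset.sum_congr rfl fun i _ => ?_
    have h2 := hC a b 1 i
    have h3 : sg (1 : ZMod 2) = -1 := rfl
    simp only [HG.mul_a, HG.mul_b, HG.mul_s, HG.mul_i]
    rw [h2, h3, sg_add, sg_add, sg_add ((E σ).s + 1), sg_add (E σ).s 1, h3, sg_zero,
      add_comm (E σ).a a, add_comm (E σ).b b, add_comm (E σ).i i]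
    ring
  refine ⟨typeOf φ₀ f, isCMType_typeOf φ₀ f hf hfc, ?_, ?_⟩
  · intro c hc hsmall
    rw [isRel_iff φ₀ f hf] at hc
    obtain ⟨h1, h2⟩ := hc
    let C : HG m n → ℤ := fun y => c () ((E.symm y : K ≃ₐ[ℚ] K) : K →+* K)
    have hCE : ∀ g, C (E g) = c () (g : K →+* K) := fun g => by
      simp only [C, MulEquiv.symm_apply_apply]
    have hC : ∀ a b s i, C ⟨a, b, s, i⟩ = sg s * C ⟨a, b, 0, i⟩ := by
      intro a b s i
      have h01 : ∀ s : ZMod 2, s = 0 ∨ s = 1 := by decide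
      rcases h01 s with rfl | rfl
      · rw [sg_zero, one_mul]
      · have h3 : (⟨a, b, 1, i⟩ : HG m n) = ⟨a, b, 0, i⟩ * HG.c m n := by
          ext1 <;> simp [HG.c]
        have h4 : sg (1 : ZMod 2) = -1 := rfl
        rw [h4, neg_one_mul, h3]
        simp only [C, map_mul]
        rw [← hcE, MulEquiv.symm_apply_apply]
        exact h1 _
    by_contra hcon
    push Not at hcon
    obtain ⟨_, φ, hφ⟩ := hcon
    obtain ⟨g, rfl⟩ := (galEquiv K).surjective φ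
    have hRel : Rel ee (fun a b i => C ⟨a, b, 0, i⟩) := by
      intro a' b' i'
      have h3 := hrel C hC (E.symm ⟨a', b', 0, i'⟩)
      rw [MulEquiv.apply_symm_apply] at h3
      rw [Finset.sum_congr rfl (fun g _ => by rw [hCE g]), h2, sg_zero] at h3
      have h4 := (mul_eq_zero.1 h3.symm).resolve_left (by norm_num)
      exact h4
    obtain ⟨a, b, i, hab⟩ := hlong _ hRel ⟨(E g).a, (E g).b, (E g).i, by
      intro h0
      apply hφ
      rw [galEquiv_apply, ← hCE g]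
      have h5 : E g = ⟨(E g).a, (E g).b, (E g).s, (E g).i⟩ := rfl
      rw [h5, hC, h0, mul_zero]⟩
    exact absurd (hsmall () _) (not_lt.2 hab)
  · let C : HG m n → ℤ := fun y => sg y.s * x₀ y.a y.b y.i
    let c : Unit → (K →+* K) → ℤ := fun _ φ => C (E ((galEquiv K).symm φ))
    have hcg : ∀ g : K ≃ₐ[ℚ] K, c () (g : K →+* K) = C (E g) := by
      intro g
      simp only [c]
      rw [← galEquiv_apply, Equiv.symm_apply_apply]
    refine ⟨c, (isRel_iff φ₀ f hf c).2 ⟨fun g => ?_, fun σ => ?_⟩, ?_, ?_⟩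
    · rw [hcg, hcg, map_mul, hcE]
      simp only [C, HG.mul_a, HG.mul_b, HG.mul_s, HG.mul_i, HG.c, add_zero, dotProduct_zero, hs1]
      ring
    · rw [Finset.sum_congr rfl (fun g _ => by rw [hcg g]), hrel C (fun a b s i => by
        simp only [C]; rw [sg_zero, one_mul]) σ]
      have h3 := hx₀ (E σ).a (E σ).b (E σ).i
      have h4 : ∀ a b i, C ⟨a, b, 0, i⟩ = x₀ a b i := by
        intro a b i
        simp only [C]
        rw [sg_zero, one_mul]
      simp only [h4]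
      rw [h3, mul_zero]
    · intro i φ
      simp only [c, C]
      rw [abs_mul, abs_sg, one_mul]
      exact hx₀le _ _ _
    · obtain ⟨a, b, i, hne⟩ := hx₀ne
      refine ⟨(), ((E.symm ⟨a, b, 0, i⟩ : K ≃ₐ[ℚ] K) : K →+* K), ?_⟩
      rw [hcg, MulEquiv.apply_symm_apply]
      simp only [C]
      rw [sg_zero, one_mul]
      exact hne

/-- **CM types with only long relations.** -/
theorem exists_type2 {m k : ℕ} (hm : 2 ≤ m) (hk : 2 ≤ k)
    (E : (K ≃ₐ[ℚ] K) ≃* HG m (3 ^ k))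
    (hE : ∀ g : K ≃ₐ[ℚ] K, (∀ x, g x = IsCMField.complexConj K x) → E g = HG.c m (3 ^ k))
    (φ₀ : K →+* ℂ) :
    ∃ Φ : Set (K →+* ℂ), IsCMType Φ ∧
      (∀ c : Unit → (K →+* K) → ℤ, IsRel (E := fun _ : Unit => K) (fun _ => Φ) φ₀ c →
        (∀ i φ, 2 ^ m * |c i φ| < (3 ^ k - 1) ^ (2 ^ m - 2)) → ∀ i φ, c i φ = 0) ∧
      ∃ c : Unit → (K →+* K) → ℤ, IsRel (E := fun _ : Unit => K) (fun _ => Φ) φ₀ c ∧
        (∀ i φ, |c i φ| ≤ (3 ^ k - 1) ^ (2 ^ m - 2)) ∧ ∃ i φ, c i φ ≠ 0 := by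
  have : NeZero (3 ^ k) := ⟨by positivity⟩
  have h3 : 3 ≤ 3 ^ k := by
    calc 3 = 3 ^ 1 := (pow_one 3).symm
      _ ≤ 3 ^ k := Nat.pow_le_pow_right (by norm_num) (by omega)
  have h := core2 (n := 3 ^ k) hm (Odd.pow (by decide : Odd 3)) h3
  push_cast at h
  exact exists_type_of _ h E hE φ₀

end

end Pool.Agent.N90.MN
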