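import Pool.Agent.N90.MN.Final
import Pool.Agent.N90.MN.Typ2

/-!
# Ordinary abelian varieties whose first exotic power is about `2 ^ √g`
-/

set_option autoImplicit false
set_option linter.unusedSectionVars false

namespace Pool.Agent.N90.MN

open NumberField Finset Module Pool.Agent.N90.HE Pool.Agent.N90.FD Pool.Agent.N90.HG
  Pool.Agent.H204R3.CM Pool.Agent.W546.GHC Pool.Agent.H977R3.CM Pool.Agent.N90.TD

noncomputable section

theorem cast_three_pow (k : ℕ) : (((3 ^ k - 1 : ℕ) : ℤ)) = 3 ^ k - 1 := by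
  rw [Nat.cast_sub (Nat.one_le_pow _ _ (by norm_num))]
  push_cast
  rfl

theorem two_pow_lt {m k : ℕ} (hm : 2 ≤ m) (hk : 2 ≤ k) :
    (2 : ℤ) ^ m < (3 ^ k - 1) ^ (2 ^ m - 2) := by
  have h1 : ∀ m, 2 ≤ m → m < 3 * (2 ^ m - 2) := by
    intro m hm
    have h2 : ∀ m, 2 ≤ m → m + 2 ≤ 2 ^ m := by
      intro m hm
      induction m, hm using Nat.le_induction with
      | base => norm_num
      | succ m hm ih =>
        rw [pow_succ]
        omega
    have := h2 m hm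
    omega
  have h3 : (8 : ℤ) ≤ 3 ^ k - 1 := by
    have h4 : (3 : ℤ) ^ 2 ≤ 3 ^ k := pow_le_pow_right₀ (by norm_num) hk
    linarith
  calc (2 : ℤ) ^ m < 2 ^ (3 * (2 ^ m - 2)) := pow_lt_pow_right₀ (by norm_num) (h1 m hm)
    _ = 8 ^ (2 ^ m - 2) := by
        rw [pow_mul]
        norm_num
    _ ≤ (3 ^ k - 1) ^ (2 ^ m - 2) := pow_le_pow_left₀ (by norm_num) h3 _

/-- **Ordinary abelian varieties with a late exotic power.** -/
theorem lower2 {m k : ℕ} (hm : 2 ≤ m) (hk : 2 ≤ k) (B : ℕ) :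
    ∃ (p : ℕ) (_ : Fact p.Prime) (a : ℕ) (E : Type) (_ : Field E) (_ : NumberField E)
      (_ : IsCMField E) (π : E), B < p ∧
      IsOrdinaryFamily p a (fun _ : Unit => E) (fun _ => π) ∧
      finrank ℚ E = 2 * (4 ^ m * 3 ^ k) ∧
      (∀ (K : Type) [Field K] [CharZero K] (r d : ℕ),
        2 ^ m * min r d < (3 ^ k - 1) ^ (2 ^ m - 2) →
        TateGeneratedIn (frob K (E := fun _ : Unit => E) (fun _ => π) (fun _ : Fin r => ()))
          (p ^ a) d) ∧
      (∀ (K : Type) [Field K] [CharZero K] (r : ℕ), (3 ^ k - 1) ^ (2 ^ m - 2) ≤ r →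
        ¬ TateGenerated (frob K (E := fun _ : Unit => E) (fun _ => π) (fun _ : Fin r => ()))
          (p ^ a)) := by
  classical
  have : NeZero (3 ^ k) := ⟨by positivity⟩
  obtain ⟨E, iF, iN, iCM, iG, e, he⟩ := exists_heis m k
  obtain ⟨φ₀⟩ : Nonempty (E →+* ℂ) := inferInstance
  obtain ⟨Φ, hΦ, hlong, c₀, hc₀, hc₀le, hc₀ne⟩ := exists_type2 hm hk e he φ₀
  obtain ⟨p, hp, hBp, hemb⟩ := exists_embed E B
  have hfact : Fact p.Prime := ⟨hp⟩
  obtain ⟨x₀⟩ := hemb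
  obtain ⟨ν⟩ := Pool.Agent.R401.Iso.exists_iso p
  obtain ⟨a, π, ha, hint, hweil, hord, hmem⟩ := exists_weil x₀ ν φ₀ Φ hΦ
  have hcast : (((3 ^ k - 1 : ℕ) : ℤ)) = 3 ^ k - 1 := cast_three_pow k
  have hpow' : (2 : ℤ) ^ m < (3 ^ k - 1) ^ (2 ^ m - 2) := two_pow_lt hm hk
  have hno : ∀ c : Unit → (E →+* E) → ℤ, IsRel (E := fun _ : Unit => E) (fun _ => Φ) φ₀ c →
      (∀ i φ, |c i φ| ≤ 1) → ∀ i φ, c i φ = 0 := by
    intro c hc hle
    refine hlong c hc fun i φ => ?_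
    refine lt_of_le_of_lt ?_ hpow'
    calc (2 : ℤ) ^ m * |c i φ| ≤ 2 ^ m * 1 :=
          mul_le_mul_of_nonneg_left (hle i φ) (by positivity)
      _ = 2 ^ m := mul_one _
  have hfam : IsOrdinaryFamily p a (fun _ : Unit => E) (fun _ => π) := by
    refine ⟨ha, fun _ => hint, fun _ => hweil, fun _ => hord, ?_⟩
    rintro s hs ⟨⟩ ⟨⟩ φ φ' hφ
    congr 1
    refine eq_of_same φ₀ Φ hΦ hno φ φ' ?_
    rintro σ g g' rfl rfl
    have h1 : g (π ^ s) = g' (π ^ s) := φ₀.injective hφ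
    have h2 : ‖ν.symm (φ₀ (σ (g π)))‖ ^ s = ‖ν.symm (φ₀ (σ (g' π)))‖ ^ s := by
      rw [← norm_pow, ← norm_pow, ← map_pow, ← map_pow, ← map_pow, ← map_pow, ← map_pow,
        ← map_pow, ← map_pow, ← map_pow, h1]
    have h3 : ‖ν.symm (φ₀ (σ (g π)))‖ = ‖ν.symm (φ₀ (σ (g' π)))‖ :=
      (pow_left_inj₀ (norm_nonneg _) (norm_nonneg _) hs.ne').1 h2
    rw [hmem, hmem]
    have h4 : (φ₀.comp ((σ * g : E ≃ₐ[ℚ] E) : E →+* E)) π = φ₀ (σ (g π)) := rfl
    have h5 : (φ₀.comp ((σ * g' : E ≃ₐ[ℚ] E) : E →+* E)) π = φ₀ (σ (g' π)) := rfl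
    rw [h4, h5, h3]
  have htyp : typ (E := fun _ : Unit => E) (fun _ => π) ν = fun _ => Φ := by
    funext i
    ext φ
    exact (hmem φ).symm
  have hclos : ∀ i : Unit, ∀ ψ : E →+* ℂ, ∃ φ : E →+* E, φ₀.comp φ = ψ := by
    intro _ ψ
    obtain ⟨g, hg⟩ := exists_emb φ₀ ψ
    exact ⟨(g : E →+* E), hg.symm⟩
  have hmult : ∀ r i, mult (fun _ : Fin r => ()) i = r := by
    rintro r ⟨⟩
    simp [mult]
  refine ⟨p, hfact, a, E, iF, iN, iCM, π, hBp, hfam, ?_, ?_, ?_⟩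
  · rw [← IsGalois.card_aut_eq_finrank, Nat.card_congr (e.toEquiv.trans (HG.equiv m (3 ^ k)))]
    rw [Nat.card_eq_fintype_card, Fintype.card_prod, Fintype.card_prod, Fintype.card_prod,
      Fintype.card_fun, ZMod.card, ZMod.card, Fintype.card_fin]
    have h4 : (4 : ℕ) ^ m = 2 ^ m * 2 ^ m := by
      rw [← mul_pow]
      norm_num
    rw [h4]
    ring
  · intro K _ _ r d hr
    apply generated_up_deg
    have h1 : TateGeneratedIn (F0 (E := fun _ : Unit => E) (fun _ => π) (fun _ : Fin r => ()))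
        (p ^ a) d := by
      rw [generated_iff_deg hfam ν, htyp]
      refine fun f hf => hodge_of_bounded_deg (E := fun _ : Unit => E) (Φ := fun _ => Φ)
        (fun _ => hΦ) _ φ₀ hclos (fun c hc hle hle' => hlong c hc fun i φ => ?_) f hf
      have h2 := hle i φ
      have h2' := hle' i φ
      rw [hmult] at h2
      have h3 : ((2 ^ m * min r d : ℕ) : ℤ) < (((3 ^ k - 1) ^ (2 ^ m - 2) : ℕ) : ℤ) := by
        exact_mod_cast hr
      rw [Nat.cast_pow, hcast] at h3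
      push_cast at h3
      calc (2 : ℤ) ^ m * |c i φ| ≤ 2 ^ m * min (r : ℤ) (d : ℤ) :=
            mul_le_mul_of_nonneg_left (le_min h2 h2') (by positivity)
        _ < _ := h3
    exact h1
  · intro K _ _ r hr hgen
    have h1 : TateGenerated (F0 (E := fun _ : Unit => E) (fun _ => π) (fun _ : Fin r => ()))
        (p ^ a) := generated_down _ _ hgen
    rw [generated_iff hfam ν, htyp] at h1
    refine not_generated_of_rel (E := fun _ : Unit => E) (Φ := fun _ => Φ) (fun _ => hΦ)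
      (fun _ : Fin r => ()) φ₀ ?_ hclos c₀ hc₀ (fun i φ => ?_) hc₀ne h1
    · have h2 := separated_typ hfam ν φ₀ hclos
      rwa [htyp] at h2
    · rw [hmult]
      refine (hc₀le i φ).trans ?_
      have h5 : (((3 ^ k - 1) ^ (2 ^ m - 2) : ℕ) : ℤ) ≤ (r : ℤ) := by exact_mod_cast hr
      rw [Nat.cast_pow, hcast] at h5
      exact h5

end

end Pool.Agent.N90.MN
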