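import Mathlib
import Pool.Agent.H884R2.Sko.Split

/-!
# Number fields embed in fields of `p`-adic numbers, for arbitrarily large `p`
-/

set_option autoImplicit false

namespace Pool.Agent.N90.MN

open Polynomial NumberField

theorem exists_lift_root (G : ℤ[X]) (hG : G.Monic) (hd : 0 < G.natDegree)
    (hsep : (G.map (algebraMap ℤ ℚ)).Separable) (N : ℕ) :
    ∃ p : ℕ, ∃ hp : p.Prime, N < p ∧
      (haveI : Fact p.Prime := ⟨hp⟩; ∃ z : ℤ_[p], aeval z G = 0) := by
  -- a Bézout relation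
  obtain ⟨u, v, huv⟩ := hsep
  obtain ⟨b, hbM, hb⟩ := IsLocalization.integerNormalization_spec (nonZeroDivisors ℤ) u
  obtain ⟨c, hcM, hc⟩ := IsLocalization.integerNormalization_spec (nonZeroDivisors ℤ) v
  set U := IsLocalization.integerNormalization (nonZeroDivisors ℤ) u
  set V := IsLocalization.integerNormalization (nonZeroDivisors ℤ) v
  have hb0 : (b : ℤ) ≠ 0 := nonZeroDivisors.ne_zero hbM
  have hc0 : (c : ℤ) ≠ 0 := nonZeroDivisors.ne_zero hcM
  set D : ℤ := (b : ℤ) * (c : ℤ) with hD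
  have hD0 : D ≠ 0 := mul_ne_zero hb0 hc0
  have hbez : C (c : ℤ) * U * G + C (b : ℤ) * V * derivative G = C D := by
    apply Polynomial.map_injective (algebraMap ℤ ℚ) (RingHom.injective_int _)
    simp only [Polynomial.map_add, Polynomial.map_mul, Polynomial.map_C, hb, hc]
    rw [← Polynomial.derivative_map]
    have h1 : ((b : ℤ) • u : ℚ[X]) = C (((b : ℤ) : ℚ)) * u := by
      rw [← Polynomial.smul_eq_C_mul]
      exact (Int.cast_smul_eq_zsmul ℚ _ _).symm
    have h2 : ((c : ℤ) • v : ℚ[X]) = C (((c : ℤ) : ℚ)) * v := by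
      rw [← Polynomial.smul_eq_C_mul]
      exact (Int.cast_smul_eq_zsmul ℚ _ _).symm
    rw [h1, h2]
    have h3 : (algebraMap ℤ ℚ) D = (((b : ℤ) : ℚ)) * ((c : ℤ) : ℚ) := by
      rw [hD]
      push_cast
      simp
    rw [h3, C_mul]
    simp only [eq_intCast]
    linear_combination (C (((b : ℤ) : ℚ)) * C (((c : ℤ) : ℚ))) * huv
  obtain ⟨p, hp, hNp, hsplit⟩ := Pool.Agent.H884R2.Sko.exists_split G hG (max N D.natAbs)
  have hfact : Fact p.Prime := ⟨hp⟩
  have hpD : ¬ (p : ℤ) ∣ D := by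
    intro h
    have h1 := Nat.le_of_dvd (Int.natAbs_pos.2 hD0) (Int.natCast_dvd.1 h)
    have h2 := le_max_right N D.natAbs
    omega
  refine ⟨p, hp, (le_max_left _ _).trans_lt hNp, ?_⟩
  -- a root modulo `p`
  obtain ⟨r, hr⟩ : ∃ r : ZMod p, (G.map (Int.castRingHom (ZMod p))).eval r = 0 := by
    apply hsplit.exists_eval_eq_zero
    rw [hG.degree_map]
    exact (natDegree_pos_iff_degree_pos.1 hd).ne'
  obtain ⟨x, hx⟩ := ZMod.ringHom_surjective (PadicInt.toZMod (p := p)) r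
  have hmod : ∀ P : ℤ[X], PadicInt.toZMod (aeval x P) = (P.map (Int.castRingHom (ZMod p))).eval r := by
    intro P
    rw [← hx, Polynomial.eval_map, Polynomial.aeval_def, Polynomial.hom_eval₂]
    congr 1
    exact RingHom.ext_int _ _
  have hlt : ∀ y : ℤ_[p], ‖y‖ < 1 ↔ PadicInt.toZMod y = 0 := by
    intro y
    rw [PadicInt.norm_lt_one_iff_dvd, ← Ideal.mem_span_singleton, ← PadicInt.maximalIdeal_eq_span_p,
      ← PadicInt.ker_toZMod, RingHom.mem_ker]
  have n1 : ‖(aeval x G : ℤ_[p])‖ < 1 := by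
    rw [hlt, hmod, hr]
  have n2 : ‖(aeval x (derivative G) : ℤ_[p])‖ = 1 := by
    refine le_antisymm (PadicInt.norm_le_one _) (not_lt.1 fun h => ?_)
    rw [hlt] at h
    rw [hlt] at n1
    have h1 := congrArg (fun P => PadicInt.toZMod (aeval x P)) hbez
    simp only [map_add, map_mul, n1, h, mul_zero, add_zero] at h1
    rw [hmod, map_C, eval_C, eq_intCast] at h1
    apply hpD
    rw [← ZMod.intCast_zmod_eq_zero_iff_dvd]
    exact h1.symm
  obtain ⟨z, hz, -⟩ := hensels_lemma (F := G) (a := x) (by rw [n2]; simpa using n1)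
  exact ⟨z, hz⟩

/-- A number field embeds in `ℚ_p` for arbitrarily large `p`. -/
theorem exists_embed (K : Type) [Field K] [NumberField K] (N : ℕ) :
    ∃ p : ℕ, ∃ hp : p.Prime, N < p ∧
      (haveI : Fact p.Prime := ⟨hp⟩; Nonempty (K →+* ℚ_[p])) := by
  obtain ⟨α, hα⟩ := Field.exists_primitive_element ℚ K
  obtain ⟨⟨d, hd⟩, hint⟩ := IsIntegral.exists_multiple_integral_of_isLocalization
    (nonZeroDivisors ℤ) (Rₘ := ℚ) α (Algebra.IsIntegral.isIntegral α)
  have hd0 : d ≠ 0 := nonZeroDivisors.ne_zero hd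
  set θ : K := d • α with hθ
  have hint' : IsIntegral ℤ θ := hint
  have htop : IntermediateField.adjoin ℚ {θ} = ⊤ := by
    rw [eq_top_iff, ← hα, IntermediateField.adjoin_simple_le_iff]
    have h1 : θ ∈ IntermediateField.adjoin ℚ {θ} := IntermediateField.mem_adjoin_simple_self ℚ θ
    have h2 : α = ((d : ℚ)⁻¹) • θ := by
      rw [hθ, ← Int.cast_smul_eq_zsmul ℚ, smul_smul, inv_mul_cancel₀ (Int.cast_ne_zero.2 hd0),
        one_smul]
    rw [h2]
    exact IntermediateField.smul_mem _ h1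
  have hmin : minpoly ℚ θ = (minpoly ℤ θ).map (algebraMap ℤ ℚ) :=
    minpoly.isIntegrallyClosed_eq_field_fractions' ℚ hint'
  obtain ⟨p, hp, hNp, z, hz⟩ := exists_lift_root (minpoly ℤ θ) (minpoly.monic hint')
    (minpoly.natDegree_pos hint') (by
      rw [← hmin]
      exact (minpoly.irreducible (Algebra.IsIntegral.isIntegral θ)).separable) N
  have hfact : Fact p.Prime := ⟨hp⟩
  refine ⟨p, hp, hNp, ?_⟩
  have hroot : (z : ℚ_[p]) ∈ (minpoly ℚ θ).aroots ℚ_[p] := by
    rw [mem_aroots]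
    refine ⟨minpoly.ne_zero (Algebra.IsIntegral.isIntegral θ), ?_⟩
    rw [hmin, aeval_map_algebraMap]
    have h1 := congrArg (PadicInt.Coe.ringHom (p := p)) hz
    rw [map_zero] at h1
    rw [← h1, Polynomial.aeval_def, Polynomial.aeval_def, Polynomial.hom_eval₂]
    congr 1
  let f := (IntermediateField.algHomAdjoinIntegralEquiv ℚ
    (Algebra.IsIntegral.isIntegral θ)).symm ⟨(z : ℚ_[p]), hroot⟩
  let e : K ≃ₐ[ℚ] IntermediateField.adjoin ℚ {θ} :=
    (IntermediateField.topEquiv (F := ℚ) (E := K)).symm.trans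
      (IntermediateField.equivOfEq htop).symm
  exact ⟨(f.comp (e : K →ₐ[ℚ] IntermediateField.adjoin ℚ {θ})).toRingHom⟩

end Pool.Agent.N90.MN
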