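import Pool.Agent.N90.FD.Surj
import Pool.Agent.N90.HG.Conv

/-!
# CM types with only long relations
-/

set_option autoImplicit false
set_option linter.unusedSectionVars false

namespace Pool.Agent.N90.MN

open NumberField Finset Module Pool.Agent.N90.HE Pool.Agent.N90.FD Pool.Agent.N90.HG
  Pool.Agent.H204R3.CM Pool.Agent.W546.GHC Pool.Agent.H977R3.CM

noncomputable section

section field

variable {K : Type} [Field K] [NumberField K] [IsGalois ℚ K]

/-- The endomorphisms of the field are the elements of the Galois group. -/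
def galEquiv (K : Type) [Field K] [NumberField K] : (K ≃ₐ[ℚ] K) ≃ (K →+* K) :=
  Equiv.ofBijective (fun g => (g : K →+* K)) (by
    constructor
    · intro g h hgh
      ext x
      exact RingHom.congr_fun hgh x
    · intro φ
      refine ⟨AlgEquiv.ofBijective φ.toRatAlgHom (AlgHom.bijective _), ?_⟩
      rfl)

theorem galEquiv_apply (g : K ≃ₐ[ℚ] K) : galEquiv K g = (g : K →+* K) := rfl

/-- The complex embeddings of a Galois field. -/
theorem exists_emb (φ₀ φ : K →+* ℂ) : ∃ g : K ≃ₐ[ℚ] K, φ = φ₀.comp (g : K →+* K) := by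
  obtain ⟨τ, hτ⟩ := ComplexEmbedding.exists_comp_symm_eq_of_comp_eq (k := ℚ) φ₀ φ
    (Subsingleton.elim _ _)
  exact ⟨τ.symm, hτ.symm⟩

theorem emb_inj (φ₀ : K →+* ℂ) {g h : K ≃ₐ[ℚ] K}
    (hgh : φ₀.comp (g : K →+* K) = φ₀.comp (h : K →+* K)) : g = h := by
  ext x
  exact φ₀.injective (RingHom.congr_fun hgh x)

end field

variable {K : Type} [Field K] [NumberField K] [IsCMField K] [IsGalois ℚ K]

/-- the complex conjugation as an element of the Galois group -/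
def cgal (K : Type) [Field K] [NumberField K] [IsCMField K] : K ≃ₐ[ℚ] K :=
  (galEquiv K).symm (IsCMField.complexConj K : K →+* K)

theorem cgal_apply (x : K) : cgal K x = IsCMField.complexConj K x := by
  have h := (galEquiv K).apply_symm_apply (IsCMField.complexConj K : K →+* K)
  exact RingHom.congr_fun h x

theorem cbar_gal (g : K ≃ₐ[ℚ] K) : cbar (g : K →+* K) = ((g * cgal K : K ≃ₐ[ℚ] K) : K →+* K) := by
  ext x
  change g (IsCMField.complexConj K x) = g (cgal K x)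
  rw [cgal_apply]

theorem conj_emb (φ₀ : K →+* ℂ) (g : K ≃ₐ[ℚ] K) :
    ComplexEmbedding.conjugate (φ₀.comp (g : K →+* K)) =
      φ₀.comp ((g * cgal K : K ≃ₐ[ℚ] K) : K →+* K) := by
  rw [← cbar_gal, comp_cbar]

/-- the set of embeddings given by a sign function on the Galois group -/
def typeOf (φ₀ : K →+* ℂ) (f : (K ≃ₐ[ℚ] K) → ℤ) : Set (K →+* ℂ) :=
  {φ | ∃ g : K ≃ₐ[ℚ] K, φ = φ₀.comp (g : K →+* K) ∧ f g = 1}

theorem mem_typeOf (φ₀ : K →+* ℂ) (f : (K ≃ₐ[ℚ] K) → ℤ) (g : K ≃ₐ[ℚ] K) :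
    φ₀.comp (g : K →+* K) ∈ typeOf φ₀ f ↔ f g = 1 := by
  constructor
  · rintro ⟨h, h1, h2⟩
    rw [emb_inj φ₀ h1]
    exact h2
  · intro h
    exact ⟨g, rfl, h⟩

theorem isCMType_typeOf (φ₀ : K →+* ℂ) (f : (K ≃ₐ[ℚ] K) → ℤ) (hf : ∀ g, f g = 1 ∨ f g = -1)
    (hc : ∀ g, f (g * cgal K) = -f g) : IsCMType (typeOf φ₀ f) := by
  intro φ
  obtain ⟨g, rfl⟩ := exists_emb φ₀ φ
  rw [conj_emb, mem_typeOf, mem_typeOf, hc]
  rcases hf g with h | h <;> rw [h] <;> norm_num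

/-- The relations of a CM type of a Galois field. -/
theorem isRel_iff (φ₀ : K →+* ℂ) (f : (K ≃ₐ[ℚ] K) → ℤ) (hf : ∀ g, f g = 1 ∨ f g = -1)
    (c : Unit → (K →+* K) → ℤ) :
    IsRel (E := fun _ : Unit => K) (fun _ => typeOf φ₀ f) φ₀ c ↔
      (∀ g : K ≃ₐ[ℚ] K, c () ((g * cgal K : K ≃ₐ[ℚ] K) : K →+* K) = -c () (g : K →+* K)) ∧
      ∀ σ : K ≃ₐ[ℚ] K, ∑ g : K ≃ₐ[ℚ] K, c () (g : K →+* K) * f (σ * g) = 0 := by
  classical
  unfold IsRel
  constructor
  · rintro ⟨h1, h2⟩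
    refine ⟨fun g => ?_, fun σ => ?_⟩
    · rw [← cbar_gal]
      exact h1 () _
    · refine Eq.trans ?_ (h2 σ)
      refine Eq.trans ?_ (Fintype.sum_unique _).symm
      refine Fintype.sum_equiv (galEquiv K) _ _ fun g => ?_
      rw [galEquiv_apply]
      congr 1
      have h3 : φ₀.comp (σ • (g : K →+* K)) = φ₀.comp ((σ * g : K ≃ₐ[ℚ] K) : K →+* K) := rfl
      rw [h3]
      rcases hf (σ * g) with h | h
      · rw [h, if_pos ((mem_typeOf _ _ _).2 h)]
      · rw [h, if_neg]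
        rw [mem_typeOf, h]
        norm_num
  · rintro ⟨h1, h2⟩
    refine ⟨fun _ φ => ?_, fun σ => ?_⟩
    · obtain ⟨g, rfl⟩ := (galEquiv K).surjective φ
      rw [galEquiv_apply, cbar_gal]
      exact h1 g
    · refine Eq.trans (Fintype.sum_unique _) ?_
      refine Eq.trans ?_ (h2 σ)
      refine (Fintype.sum_equiv (galEquiv K) _ _ fun g => ?_).symm
      rw [galEquiv_apply]
      congr 1
      have h3 : φ₀.comp (σ • (g : K →+* K)) = φ₀.comp ((σ * g : K ≃ₐ[ℚ] K) : K →+* K) := rfl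
      rw [h3]
      rcases hf (σ * g) with h | h
      · rw [h, if_pos ((mem_typeOf _ _ _).2 h)]
      · rw [h, if_neg]
        rw [mem_typeOf, h]
        norm_num

/-- **CM types with only long relations.** -/
theorem exists_type {m n : ℕ} [NeZero n] (hm : 1 ≤ m) (hn : Odd n) (hle : 4 * 2 ^ m ≤ n)
    (E : (K ≃ₐ[ℚ] K) ≃* HG m n)
    (hE : ∀ g : K ≃ₐ[ℚ] K, (∀ x, g x = IsCMField.complexConj K x) → E g = HG.c m n)
    (φ₀ : K →+* ℂ) :
    ∃ Φ : Set (K →+* ℂ), IsCMType Φ ∧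
      (∀ c : Unit → (K →+* K) → ℤ, IsRel (E := fun _ : Unit => K) (fun _ => Φ) φ₀ c →
        (∀ i φ, 2 ^ m * |c i φ| < 2 ^ (2 ^ m - 1)) → ∀ i φ, c i φ = 0) ∧
      ∃ c : Unit → (K →+* K) → ℤ, IsRel (E := fun _ : Unit => K) (fun _ => Φ) φ₀ c ∧
        (∀ i φ, |c i φ| ≤ 2 ^ (2 ^ m - 1)) ∧ ∃ i φ, c i φ ≠ 0 := by
  classical
  obtain ⟨ee, hee, hlong, x₀, hx₀, hx₀ne, hx₀le⟩ := core hm hn hle
  let f : (K ≃ₐ[ℚ] K) → ℤ := fun g => sg (E g).s * ee (E g).a (E g).b (E g).i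
  have hcE : E (cgal K) = HG.c m n := hE _ cgal_apply
  have hf : ∀ g, f g = 1 ∨ f g = -1 := by
    intro g
    simp only [f]
    rcases sg_eq (E g).s with h1 | h1 <;> rcases hee (E g).a (E g).b (E g).i with h2 | h2 <;>
      rw [h1, h2] <;> norm_num
  have hs1 : ∀ s : ZMod 2, sg (s + 1) = -sg s := by decide
  have hfc : ∀ g, f (g * cgal K) = -f g := by
    intro g
    simp only [f, map_mul, hcE, HG.mul_a, HG.mul_b, HG.mul_s, HG.mul_i, HG.c, add_zero,
      dotProduct_zero, hs1]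
    ring
  -- sums over the group
  have hsum : ∀ F : HG m n → ℤ, ∑ g : K ≃ₐ[ℚ] K, F (E g) =
      ∑ a, ∑ b, ∑ i, (F ⟨a, b, 0, i⟩ + F ⟨a, b, 1, i⟩) := by
    intro F
    rw [Fintype.sum_equiv (E.toEquiv.trans (HG.equiv m n)) (fun g => F (E g))
      (fun y => F ((HG.equiv m n).symm y)) (fun g => by
        change F (E g) = F ((HG.equiv m n).symm ((HG.equiv m n) (E g)))
        rw [Equiv.symm_apply_apply])]
    rw [Fintype.sum_prod_type]
    refine Finset.sum_congr rfl fun a _ => ?_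
    rw [Fintype.sum_prod_type]
    refine Finset.sum_congr rfl fun b _ => ?_
    rw [Fintype.sum_prod_type]
    change ∑ s : ZMod 2, ∑ i, F ⟨a, b, s, i⟩ = _
    rw [Finset.sum_comm]
    refine Finset.sum_congr rfl fun i _ => ?_
    exact Fin.sum_univ_two (fun s : Fin 2 => F ⟨a, b, (s : ZMod 2), i⟩)
  have hrel : ∀ (C : HG m n → ℤ), (∀ a b s i, C ⟨a, b, s, i⟩ = sg s * C ⟨a, b, 0, i⟩) →
      ∀ σ : K ≃ₐ[ℚ] K, ∑ g : K ≃ₐ[ℚ] K, C (E g) * f (σ * g) = 2 * sg (E σ).s *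
        ∑ a, ∑ b, ∑ i, C ⟨a, b, 0, i⟩ * sg ((E σ).b ⬝ᵥ a) *
          ee (a + (E σ).a) (b + (E σ).b) (i + (E σ).i) := by
    intro C hC σ
    have h1 : ∀ g : K ≃ₐ[ℚ] K, C (E g) * f (σ * g) = (fun y : HG m n => C y *
        (sg ((E σ) * y).s * ee ((E σ) * y).a ((E σ) * y).b ((E σ) * y).i)) (E g) := by
      intro g
      simp only [f, map_mul]
    refine (Finset.sum_congr rfl fun g _ => h1 g).trans ((hsum (fun y : HG m n => C y *
        (sg ((E σ) * y).s * ee ((E σ) * y).a ((E σ) * y).b ((E σ) * y).i))).trans ?_)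
    rw [Finset.mul_sum]
    refine Finset.sum_congr rfl fun a _ => ?_
    rw [Finset.mul_sum]
    refine Finset.sum_congr rfl fun b _ => ?_
    rw [Finset.mul_sum]
    refine Finset.sum_congr rfl fun i _ => ?_
    have h2 := hC a b 1 i
    have h3 : sg (1 : ZMod 2) = -1 := rfl
    simp only [HG.mul_a, HG.mul_b, HG.mul_s, HG.mul_i]
    rw [h2, h3, sg_add, sg_add, sg_add ((E σ).s + 1), sg_add (E σ).s 1, h3, sg_zero,
      add_comm (E σ).a a, add_comm (E σ).b b, add_comm (E σ).i i]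
    ring
  refine ⟨typeOf φ₀ f, isCMType_typeOf φ₀ f hf hfc, ?_, ?_⟩
  · intro c hc hsmall
    rw [isRel_iff φ₀ f hf] at hc
    obtain ⟨h1, h2⟩ := hc
    let C : HG m n → ℤ := fun y => c () ((E.symm y : K ≃ₐ[ℚ] K) : K →+* K)
    have hCE : ∀ g, C (E g) = c () (g : K →+* K) := fun g => by
      simp only [C, MulEquiv.symm_apply_apply]
    have hC : ∀ a b s i, C ⟨a, b, s, i⟩ = sg s * C ⟨a, b, 0, i⟩ := by
      intro a b s i
      have h01 : ∀ s : ZMod 2, s = 0 ∨ s = 1 := by decide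
      rcases h01 s with rfl | rfl
      · rw [sg_zero, one_mul]
      · have h3 : (⟨a, b, 1, i⟩ : HG m n) = ⟨a, b, 0, i⟩ * HG.c m n := by
          ext1 <;> simp [HG.c]
        have h4 : sg (1 : ZMod 2) = -1 := rfl
        rw [h4, neg_one_mul, h3]
        simp only [C, map_mul]
        rw [← hcE, MulEquiv.symm_apply_apply]
        exact h1 _
    by_contra hcon
    push Not at hcon
    obtain ⟨_, φ, hφ⟩ := hcon
    obtain ⟨g, rfl⟩ := (galEquiv K).surjective φ
    have hRel : Rel ee (fun a b i => C ⟨a, b, 0, i⟩) := by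
      intro a' b' i'
      have h3 := hrel C hC (E.symm ⟨a', b', 0, i'⟩)
      rw [MulEquiv.apply_symm_apply] at h3
      rw [Finset.sum_congr rfl (fun g _ => by rw [hCE g]), h2, sg_zero] at h3
      have h4 := (mul_eq_zero.1 h3.symm).resolve_left (by norm_num)
      exact h4
    obtain ⟨a, b, i, hab⟩ := hlong _ hRel ⟨(E g).a, (E g).b, (E g).i, by
      intro h0
      apply hφ
      rw [galEquiv_apply, ← hCE g]
      have h5 : E g = ⟨(E g).a, (E g).b, (E g).s, (E g).i⟩ := rfl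
      rw [h5, hC, h0, mul_zero]⟩
    exact absurd (hsmall () _) (not_lt.2 hab)
  · let C : HG m n → ℤ := fun y => sg y.s * x₀ y.a y.b y.i
    let c : Unit → (K →+* K) → ℤ := fun _ φ => C (E ((galEquiv K).symm φ))
    have hcg : ∀ g : K ≃ₐ[ℚ] K, c () (g : K →+* K) = C (E g) := by
      intro g
      simp only [c]
      rw [← galEquiv_apply, Equiv.symm_apply_apply]
    refine ⟨c, (isRel_iff φ₀ f hf c).2 ⟨fun g => ?_, fun σ => ?_⟩, ?_, ?_⟩
    · rw [hcg, hcg, map_mul, hcE]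
      simp only [C, HG.mul_a, HG.mul_b, HG.mul_s, HG.mul_i, HG.c, add_zero, dotProduct_zero, hs1]
      ring
    · rw [Finset.sum_congr rfl (fun g _ => by rw [hcg g]), hrel C (fun a b s i => by
        simp only [C]; rw [sg_zero, one_mul]) σ]
      have h3 := hx₀ (E σ).a (E σ).b (E σ).i
      have h4 : ∀ a b i, C ⟨a, b, 0, i⟩ = x₀ a b i := by
        intro a b i
        simp only [C]
        rw [sg_zero, one_mul]
      simp only [h4]
      rw [h3, mul_zero]
    · intro i φ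
      simp only [c, C]
      rw [abs_mul, abs_sg, one_mul]
      exact hx₀le _ _ _
    · obtain ⟨a, b, i, hne⟩ := hx₀ne
      refine ⟨(), ((E.symm ⟨a, b, 0, i⟩ : K ≃ₐ[ℚ] K) : K →+* K), ?_⟩
      rw [hcg, MulEquiv.apply_symm_apply]
      simp only [C]
      rw [sg_zero, one_mul]
      exact hne

end

end Pool.Agent.N90.MN
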