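import Pool.Agent.N90.MN.Typ
import Pool.Agent.N90.MN.Prime
import Pool.Agent.H485R3.K3Exists

/-!
# Ordinary Weil numbers with a given CM type
-/

set_option autoImplicit false
set_option linter.unusedSectionVars false

namespace Pool.Agent.N90.MN

open NumberField Finset Module Pool.Agent.H204R3.CM Pool.Agent.H485R3

noncomputable section

variable {K : Type} [Field K] [NumberField K] [IsCMField K] [IsGalois ℚ K]

theorem cgal_cgal (x : K) : cgal K (cgal K x) = x := by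
  rw [cgal_apply, cgal_apply, IsCMField.complexConj_apply_apply]

theorem cgal_comm (g : K ≃ₐ[ℚ] K) (x : K) : cgal K (g x) = g (cgal K x) := by
  obtain ⟨φ₀⟩ : Nonempty (K →+* ℂ) := inferInstance
  apply φ₀.injective
  rw [cgal_apply, cgal_apply, IsCMField.complexEmbedding_complexConj]
  have h1 := IsCMField.complexEmbedding_complexConj (K := K) (φ₀.comp (g : K →+* K)) x
  exact h1.symm

/-- **Weil numbers with a given CM type.** -/
theorem exists_weil {p : ℕ} [Fact p.Prime] (x₀ : K →+* ℚ_[p]) (ν : PadicAlgCl p ≃+* ℂ)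
    (φ₀ : K →+* ℂ) (Φ : Set (K →+* ℂ)) (hΦ : IsCMType Φ) :
    ∃ (a : ℕ) (π : K), 0 < a ∧ IsIntegral ℤ π ∧ (∀ φ : K →+* ℂ, ‖φ π‖ ^ 2 = (p : ℝ) ^ a) ∧
      (∀ ψ : K →+* PadicAlgCl p, ‖ψ π‖ = 1 ∨ ‖ψ π‖ = ‖(p : PadicAlgCl p) ^ a‖) ∧
      ∀ φ : K →+* ℂ, φ ∈ Φ ↔ ‖ν.symm (φ π)‖ < 1 := by
  classical
  have hp : p.Prime := Fact.out
  let ψ₀ : K →+* PadicAlgCl p := (ν.symm : ℂ →+* PadicAlgCl p).comp φ₀
  -- all embeddings factor
  have hall : ∀ ψ : K →+* PadicAlgCl p, ∃ g : K ≃ₐ[ℚ] K, ψ = ψ₀.comp (g : K →+* K) := by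
    intro ψ
    obtain ⟨g, hg⟩ := exists_emb φ₀ ((ν : PadicAlgCl p →+* ℂ).comp ψ)
    refine ⟨g, RingHom.ext fun x => ?_⟩
    have h1 : ν (ψ x) = φ₀ (g x) := RingHom.congr_fun hg x
    change ψ x = ν.symm (φ₀ (g x))
    rw [← h1, RingEquiv.symm_apply_apply]
  obtain ⟨g₀, hg₀⟩ := hall ((algebraMap ℚ_[p] (PadicAlgCl p)).comp x₀)
  have hψ₀ : ψ₀ = (algebraMap ℚ_[p] (PadicAlgCl p)).comp
      (x₀.comp ((g₀⁻¹ : K ≃ₐ[ℚ] K) : K →+* K)) := by
    refine RingHom.ext fun x => ?_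
    have h1 := RingHom.congr_fun hg₀ (g₀⁻¹ x)
    have h2 : g₀ (g₀⁻¹ x) = x := by
      rw [← AlgEquiv.mul_apply, mul_inv_cancel, AlgEquiv.one_apply]
    change _ = ψ₀ (g₀ (g₀⁻¹ x)) at h1
    rw [h2] at h1
    exact h1.symm
  obtain ⟨h, γ, hh, hγ0, hγ⟩ := exists_principal_pow (primeOf p ψ₀) (primeOf_ne_bot p ψ₀)
  have hgen := norm_gen_eq_one p _ ψ₀ hψ₀ h γ hh hγ0 hγ
  set y : K := algebraMap (𝓞 K) K γ with hy
  have hy0 : y ≠ 0 := fun h1 =>
    hγ0 ((FaithfulSMul.algebraMap_injective (𝓞 K) K) (h1.trans (map_zero _).symm))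
  have hlt : ‖ψ₀ y‖ < 1 := by
    have h4 : γ ∈ primeOf p ψ₀ ^ h := by
      rw [hγ]
      exact Ideal.mem_span_singleton_self γ
    exact Ideal.pow_le_self hh.ne' h4
  have hgne : ∀ g : K ≃ₐ[ℚ] K, g ≠ 1 → ‖ψ₀ (g y)‖ = 1 := by
    intro g hg
    refine hgen (ψ₀.comp (g : K →+* K)) fun h1 => hg ?_
    ext x
    apply ψ₀.injective
    exact RingHom.congr_fun h1 x
  let S : Finset (K ≃ₐ[ℚ] K) := univ.filter fun g => φ₀.comp (g : K →+* K) ∈ Φ
  let π : K := ∏ g ∈ S, g⁻¹ y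
  -- the norm
  have hprod : π * cgal K π = ∏ g : K ≃ₐ[ℚ] K, g y := by
    have h1 : ∏ g : K ≃ₐ[ℚ] K, g y = ∏ g : K ≃ₐ[ℚ] K, g⁻¹ y :=
      Fintype.prod_equiv (Equiv.inv (K ≃ₐ[ℚ] K)) _ _ fun g => by
        rw [Equiv.inv_apply, inv_inv]
    rw [h1, ← Finset.prod_mul_prod_compl S]
    congr 1
    simp only [π]
    rw [map_prod]
    refine Finset.prod_nbij' (fun g => g * cgal K) (fun g => g * cgal K) ?_ ?_ ?_ ?_ ?_
    · intro g hg
      rw [Finset.mem_compl, Finset.mem_filter]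
      rintro ⟨_, h2⟩
      rw [← conj_emb] at h2
      exact (hΦ _).1 (Finset.mem_filter.1 hg).2 h2
    · intro g hg
      rw [Finset.mem_compl, Finset.mem_filter] at hg
      rw [Finset.mem_filter]
      refine ⟨Finset.mem_univ _, ?_⟩
      rw [← conj_emb]
      by_contra h2
      exact hg ⟨Finset.mem_univ _, (hΦ _).2 h2⟩
    · intro g _
      ext x
      change g (cgal K (cgal K x)) = g x
      rw [cgal_cgal]
    · intro g _
      ext x
      change g (cgal K (cgal K x)) = g x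
      rw [cgal_cgal]
    · intro g _
      rw [cgal_comm, mul_inv_rev]
      have h2 : (cgal K)⁻¹ = cgal K := by
        rw [inv_eq_iff_mul_eq_one]
        ext x
        exact cgal_cgal x
      rw [h2, AlgEquiv.mul_apply, cgal_comm]
  have hnorm : ((Algebra.norm ℤ γ : ℤ) : K) = π * cgal K π := by
    rw [hprod, ← Algebra.norm_eq_prod_automorphisms ℚ y, hy, ← Algebra.coe_norm_int, map_intCast]
  -- the norm is a power of `p`
  have habs : ∀ φ : K →+* ℂ, ((Algebra.norm ℤ γ : ℤ) : ℂ) = ((‖φ π‖ ^ 2 : ℝ) : ℂ) := by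
    intro φ
    have h1 := congrArg φ hnorm
    rw [map_intCast, map_mul, cgal_apply, IsCMField.complexEmbedding_complexConj,
      Complex.mul_conj, Complex.normSq_eq_norm_sq] at h1
    exact h1
  have hreal : ∀ φ : K →+* ℂ, ((Algebra.norm ℤ γ : ℤ) : ℝ) = ‖φ π‖ ^ 2 := by
    intro φ
    have h1 := habs φ
    have h2 : (((Algebra.norm ℤ γ : ℤ) : ℝ) : ℂ) = ((‖φ π‖ ^ 2 : ℝ) : ℂ) := by
      rw [← h1]
      push_cast
      rfl
    exact Complex.ofReal_injective h2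
  have hπ0 : π ≠ 0 := Finset.prod_ne_zero_iff.2 fun g _ => (map_ne_zero _).2 hy0
  have hpos : 0 < Algebra.norm ℤ γ := by
    have h1 := hreal φ₀
    have h2 : 0 < ‖φ₀ π‖ ^ 2 := by
      have : ‖φ₀ π‖ ≠ 0 := norm_ne_zero_iff.2 ((map_ne_zero φ₀).2 hπ0)
      positivity
    rw [← h1] at h2
    exact_mod_cast h2
  have hdvd : (Algebra.norm ℤ γ) ∣ ((p : ℤ) ^ h) ^ finrank ℤ (𝓞 K) := by
    have h1 : (p : 𝓞 K) ^ h ∈ primeOf p ψ₀ ^ h := Ideal.pow_mem_pow (p_mem_primeOf p ψ₀) h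
    rw [hγ, Ideal.mem_span_singleton] at h1
    have h2 := map_dvd (Algebra.norm ℤ) h1
    have h3 : (p : 𝓞 K) ^ h = algebraMap ℤ (𝓞 K) ((p : ℤ) ^ h) := by
      rw [map_pow, map_natCast]
    rw [h3, Algebra.norm_algebraMap] at h2
    exact h2
  obtain ⟨a, ha⟩ : ∃ a : ℕ, Algebra.norm ℤ γ = (p : ℤ) ^ a := by
    have h1 : (Algebra.norm ℤ γ).natAbs ∣ p ^ (h * finrank ℤ (𝓞 K)) := by
      have h2 := Int.natAbs_dvd_natAbs.2 hdvd
      rwa [← pow_mul, Int.natAbs_pow, Int.natAbs_natCast] at h2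
    obtain ⟨a, _, ha⟩ := (Nat.dvd_prime_pow hp).1 h1
    refine ⟨a, ?_⟩
    have h2 := Int.natAbs_of_nonneg hpos.le
    rw [← h2, ha]
    push_cast
    rfl
  have hpadic : ‖ψ₀ y‖ = ‖(p : PadicAlgCl p) ^ a‖ := by
    have h1 := congrArg ψ₀ (hnorm.trans hprod)
    rw [map_intCast, map_prod, ha, ← Finset.mul_prod_erase _ _ (Finset.mem_univ 1)] at h1
    have h2 := congrArg norm h1
    rw [norm_mul, norm_prod, Finset.prod_congr rfl
      (fun g hg => hgne g (Finset.ne_of_mem_erase hg)), Finset.prod_const_one, mul_one] at h2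
    push_cast at h2
    exact h2.symm
  have hslope : ∀ g : K ≃ₐ[ℚ] K, ‖ψ₀ (g π)‖ =
      if g ∈ S then ‖(p : PadicAlgCl p) ^ a‖ else 1 := by
    intro g
    have h1 : ‖ψ₀ (g π)‖ = ∏ s ∈ S, ‖ψ₀ ((g * s⁻¹) y)‖ := by
      simp only [π]
      rw [map_prod, map_prod, norm_prod]
      rfl
    rw [h1]
    split_ifs with hg
    · rw [← Finset.mul_prod_erase _ _ hg, mul_inv_cancel, AlgEquiv.one_apply, hpadic,
        Finset.prod_congr rfl (fun s hs => hgne _ (fun h2 =>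
          (Finset.ne_of_mem_erase hs) (mul_inv_eq_one.1 h2).symm)), Finset.prod_const_one, mul_one]
    · exact Finset.prod_eq_one fun s hs => hgne _ fun h2 => hg (by
        rw [mul_inv_eq_one.1 h2]
        exact hs)
  have hqlt : ‖(p : PadicAlgCl p) ^ a‖ < 1 := by
    rw [← hpadic]
    exact hlt
  refine ⟨a, π, ?_, ?_, ?_, ?_, ?_⟩
  · rcases Nat.eq_zero_or_pos a with h0 | h0
    · rw [h0, pow_zero, norm_one] at hqlt
      exact absurd hqlt (lt_irrefl _)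
    · exact h0
  · refine IsIntegral.prod _ fun g _ => ?_
    exact γ.isIntegral_coe.map ((g⁻¹ : K ≃ₐ[ℚ] K) : K →+* K).toIntAlgHom
  · intro φ
    rw [← hreal φ, ha]
    push_cast
    rfl
  · intro ψ
    obtain ⟨g, rfl⟩ := hall ψ
    have h1 := hslope g
    change ‖ψ₀ (g π)‖ = 1 ∨ ‖ψ₀ (g π)‖ = _
    rw [h1]
    split_ifs
    · exact Or.inr rfl
    · exact Or.inl rfl
  · intro φ
    obtain ⟨g, rfl⟩ := exists_emb φ₀ φ
    have h1 : ‖ν.symm ((φ₀.comp (g : K →+* K)) π)‖ = ‖ψ₀ (g π)‖ := rfl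
    rw [h1, hslope]
    constructor
    · intro h2
      have hgS : g ∈ S := Finset.mem_filter.2 ⟨Finset.mem_univ _, h2⟩
      rw [if_pos hgS]
      exact hqlt
    · intro h2
      by_contra h3
      have hgS : g ∉ S := fun h4 => h3 (Finset.mem_filter.1 h4).2
      rw [if_neg hgS] at h2
      exact lt_irrefl _ h2

end

end Pool.Agent.N90.MN
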